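import Pool.Agent.H68.LP.Tig

/-! # Row CVB of the board lpg_modules (MP_5607ba_lc): approximation -/

set_option autoImplicit false

open Set Filter Topology
open scoped Pointwise

namespace Pool.Agent.H19.LP

open Pool.Agent.H68.LP

theorem pf_CVB (hCL : Pool.Agent.H68.LP.T_CL) : Pool.Agent.H68.LP.T_CVB := by
  intro G _ _ _ _ R' H' R A t x hL hA hT ht hx
  obtain ⟨s₀, Q, hQ, hQA⟩ := hCL G R' H' A hL hA hT
  obtain ⟨B, hB⟩ : ∃ B : Subgroup G, B = ⨅ s, A s := ⟨_, rfl⟩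
  rw [← hB] at hQA
  have hBle : ∀ s, B ≤ A s := fun s => by rw [hB]; exact iInf_le _ s
  have tel : ∀ s n, (t s)⁻¹ * t (s + n) ∈ A s := by
    intro s n
    induction n with
    | zero => rw [add_zero, inv_mul_cancel]; exact (A s).one_mem
    | succ n ih =>
      have e1 : (t s)⁻¹ * t (s + (n + 1)) =
          (t s)⁻¹ * t (s + n) * ((t (s + n))⁻¹ * t (s + n + 1)) := by
        rw [← add_assoc]; group
      rw [e1]
      exact (A s).mul_mem ih (hA.anti (Nat.le_add_right s n) (ht (s + n)))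
  rw [mem_closure_iff_nhds]
  intro O hO
  have hcont : Continuous fun p : G × G => p.1 * p.2 * x := by fun_prop
  have h1 : (fun p : G × G => p.1 * p.2 * x) ⁻¹' O ∈ 𝓝 ((1, 1) : G × G) := by
    refine hcont.continuousAt.preimage_mem_nhds ?_
    simp only [mul_one, one_mul]
    exact hO
  obtain ⟨V₁, hV₁, V₂, hV₂, hVV⟩ := mem_nhds_prod_iff.1 h1
  -- the approximations
  have h2 : ∀ n : ℕ, ∃ g r : G, (t (s₀ + n))⁻¹ * g ∈ A (s₀ + n) ∧ r ∈ R ∧ g * r * x⁻¹ ∈ V₂ := by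
    intro n
    obtain ⟨y, hy, g, hg, r, hr, hgr⟩ := mem_closure_iff_nhds.1 (hx (s₀ + n)) _ (rnhd hV₂ x)
    refine ⟨g, r, hg, hr, ?_⟩
    have hgr' : g * r = y := hgr
    rw [hgr']
    exact hy
  choose g r hg hr hgr using h2
  have h3 : ∀ n : ℕ, ∃ q b : G, q ∈ Q ∧ b ∈ B ∧ q * b = (t s₀)⁻¹ * g n := by
    intro n
    have h4 : (t s₀)⁻¹ * g n ∈ (A s₀ : Set G) := by
      have e1 : (t s₀)⁻¹ * g n = (t s₀)⁻¹ * t (s₀ + n) * ((t (s₀ + n))⁻¹ * g n) := by group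
      rw [e1]
      exact (A s₀).mul_mem (tel s₀ n) (hA.anti (Nat.le_add_right s₀ n) (hg n))
    obtain ⟨q, hq, b, hb, hqb⟩ := hQA h4
    exact ⟨q, b, hq, hb, hqb⟩
  choose q b hq hb hqb using h3
  obtain ⟨a, -, φ, hφ, hlim⟩ := hQ.tendsto_subseq hq
  have hgn : ∀ n, g n = t s₀ * q n * b n := by
    intro n
    rw [mul_assoc, hqb n, mul_inv_cancel_left]
  -- the limit
  have hy₀ : ∀ s, (t s)⁻¹ * (t s₀ * a) ∈ A s := by
    intro s
    have hl2 : Tendsto (fun m => (t s)⁻¹ * (t s₀ * q (φ m))) atTop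
        (𝓝 ((t s)⁻¹ * (t s₀ * a))) :=
      (hlim.const_mul (t s₀)).const_mul (t s)⁻¹
    refine (hA.cl s).mem_of_tendsto hl2 ?_
    filter_upwards [eventually_ge_atTop s] with m hm
    have hms : s ≤ s₀ + φ m := (hm.trans (hφ.id_le m)).trans (Nat.le_add_left _ _)
    obtain ⟨j, hj⟩ := Nat.exists_eq_add_of_le hms
    have e1 : (t s)⁻¹ * (t s₀ * q (φ m)) =
        (t s)⁻¹ * t (s₀ + φ m) * ((t (s₀ + φ m))⁻¹ * g (φ m)) * (b (φ m))⁻¹ := by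
      rw [hgn (φ m)]; group
    show (t s)⁻¹ * (t s₀ * q (φ m)) ∈ A s
    rw [e1]
    refine (A s).mul_mem ((A s).mul_mem ?_ (hA.anti hms (hg (φ m))))
      ((A s).inv_mem (hBle s (hb (φ m))))
    rw [hj]
    exact tel s j
  -- the end
  have hw : Tendsto (fun m => t s₀ * a * (q (φ m))⁻¹ * (t s₀)⁻¹) atTop (𝓝 1) := by
    have h5 : Tendsto (fun m => t s₀ * a * (q (φ m))⁻¹ * (t s₀)⁻¹) atTop
        (𝓝 (t s₀ * a * a⁻¹ * (t s₀)⁻¹)) := (hlim.inv.const_mul (t s₀ * a)).mul_const (t s₀)⁻¹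
    rw [mul_inv_cancel_right, mul_inv_cancel] at h5
    exact h5
  obtain ⟨m, hm⟩ := (hw.eventually hV₁).exists
  refine ⟨t s₀ * a * b (φ m) * r (φ m), ?_, ?_⟩
  · have h6 : ((t s₀ * a * (q (φ m))⁻¹ * (t s₀)⁻¹, g (φ m) * r (φ m) * x⁻¹) : G × G) ∈
        V₁ ×ˢ V₂ := ⟨hm, hgr (φ m)⟩
    have h7 : t s₀ * a * (q (φ m))⁻¹ * (t s₀)⁻¹ * (g (φ m) * r (φ m) * x⁻¹) * x ∈ O := hVV h6
    have e2 : t s₀ * a * (q (φ m))⁻¹ * (t s₀)⁻¹ * (g (φ m) * r (φ m) * x⁻¹) * x =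
        t s₀ * a * b (φ m) * r (φ m) := by
      rw [hgn (φ m)]; group
    rw [e2] at h7
    exact h7
  · refine ⟨t s₀ * a * b (φ m), fun s => ?_, r (φ m), hr (φ m), rfl⟩
    have e3 : (t s)⁻¹ * (t s₀ * a * b (φ m)) = (t s)⁻¹ * (t s₀ * a) * b (φ m) := by group
    rw [e3]
    exact (A s).mul_mem (hy₀ s) (hBle s (hb (φ m)))

end Pool.Agent.H19.LP
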