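import Pool.Agent.H7.LP.Targets

/-! # Row ESA of the board lpg_modules: essential closures -/

set_option autoImplicit false

open Set Filter Topology

namespace Pool.Agent.H19.LP

open Pool.Agent.H7.LP

theorem pf_ESA : T_ESA := by
  intro T _ _ D
  refine ⟨?_, fun U hU => ⟨?_, ?_⟩⟩
  · rw [← isOpen_compl_iff, isOpen_iff_mem_nhds]
    intro g hg
    have h1 : ∃ U ∈ 𝓝 g, IsMeagre (D ∩ U) := by
      by_contra hcon
      push Not at hcon
      exact hg hcon
    obtain ⟨U, hU, hm⟩ := h1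
    obtain ⟨V, hVU, hV, hgV⟩ := mem_nhds_iff.1 hU
    refine Filter.mem_of_superset (hV.mem_nhds hgV) fun x hx hxe => ?_
    exact hxe V (hV.mem_nhds hx) (hm.mono (inter_subset_inter_right _ hVU))
  · rintro ⟨g, hg, hgU⟩
    exact hg U (hU.mem_nhds hgU)
  · intro h
    by_contra hne
    apply h
    rw [Set.not_nonempty_iff_eq_empty] at hne
    obtain ⟨B, hBc, hBe, hB⟩ := TopologicalSpace.exists_countable_basis T
    have h2 : D ∩ U ⊆ ⋃ V ∈ {V ∈ B | IsMeagre (D ∩ V)}, D ∩ V := by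
      rintro x ⟨hxD, hxU⟩
      have hx : x ∉ ess D := fun hx => by
        have : x ∈ ess D ∩ U := ⟨hx, hxU⟩
        rw [hne] at this
        exact this
      have h1 : ∃ W ∈ 𝓝 x, IsMeagre (D ∩ W) := by
        by_contra hcon
        push Not at hcon
        exact hx hcon
      obtain ⟨W, hW, hm⟩ := h1
      obtain ⟨V, hVB, hxV, hVW⟩ := hB.mem_nhds_iff.1 hW
      exact mem_biUnion (⟨hVB, hm.mono (inter_subset_inter_right _ hVW)⟩ :
        V ∈ {V ∈ B | IsMeagre (D ∩ V)}) ⟨hxD, hxV⟩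
    refine IsMeagre.mono h2 ?_
    exact isMeagre_biUnion (hBc.mono fun V hV => hV.1) fun V hV => hV.2

end Pool.Agent.H19.LP
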