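import Pool.Agent.H7.LP.Targets

/-! # Row ESB of the board lpg_modules: Borel sets modulo meagre sets -/

set_option autoImplicit false

open Set Filter Topology

namespace Pool.Agent.H19.LP

open Pool.Agent.H7.LP

theorem esb_aux (h1 : T_ESA) {T : Type} [TopologicalSpace T] [PolishSpace T] [MeasurableSpace T]
    [BorelSpace T] {D D' : Set T} (hD : MeasurableSet D) (hD' : MeasurableSet D')
    (h : ess Dᶜ = ess D'ᶜ) : IsMeagre (D \ D') := by
  obtain ⟨V, hV, hE⟩ := (hD.diff hD').residualEq_isOpen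
  have e1 : IsMeagre ((D \ D') \ V) := by
    have h2 : ∀ᶠ x in residual T, x ∈ D \ D' ↔ x ∈ V := hE.mem_iff
    refine Filter.mem_of_superset h2 fun x hx hx' => ?_
    exact hx'.2 (hx.1 hx'.1)
  have e2 : IsMeagre (V \ (D \ D')) := by
    have h2 : ∀ᶠ x in residual T, x ∈ D \ D' ↔ x ∈ V := hE.mem_iff
    refine Filter.mem_of_superset h2 fun x hx hx' => ?_
    exact hx'.2 (hx.2 hx'.1)
  have e0 : Dᶜ ∩ V ⊆ V \ (D \ D') := fun x hx => ⟨hx.2, fun hx' => hx.1 hx'.1⟩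
  have e3 : IsMeagre (Dᶜ ∩ V) := e2.mono e0
  have e4 : ¬ (ess Dᶜ ∩ V).Nonempty := fun hne => ((h1 T Dᶜ).2 V hV).1 hne e3
  rw [h] at e4
  have e5 : IsMeagre (D'ᶜ ∩ V) := by
    by_contra hcon
    exact e4 (((h1 T D'ᶜ).2 V hV).2 hcon)
  refine (e1.union e5).mono fun x hx => ?_
  by_cases hxV : x ∈ V
  · exact Or.inr ⟨hx.2, hxV⟩
  · exact Or.inl ⟨hx, hxV⟩

theorem pf_ESB (h1 : T_ESA) : T_ESB := by
  intro T _ _ _ _ D D' hD hD' _ h
  refine ((esb_aux h1 hD hD' h).union (esb_aux h1 hD' hD h.symm)).mono fun x hx => ?_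
  by_cases h2 : x ∈ D
  · left
    exact ⟨h2, fun h3 => hx ⟨fun _ => h3, fun _ => h2⟩⟩
  · right
    refine ⟨?_, h2⟩
    by_contra h3
    exact hx ⟨fun h4 => absurd h4 h2, fun h4 => absurd h4 h3⟩

end Pool.Agent.H19.LP
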