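import Pool.Agent.H7.LP.Targets

/-! # Row LSM of the board lpg_modules: labels modulo small groups determine closed sets -/

set_option autoImplicit false

open Set Filter Topology

namespace Pool.Agent.H19.LP

open Pool.Agent.H7.LP

theorem lsm_aux {G : Type} [Group G] [TopologicalSpace G] [IsTopologicalGroup G]
    {R : ℕ → Subgroup G} {g : ℕ → G} {a a' : G} {c c' : ℕ → Set G} (hc' : ∀ n, IsClosed (c' n))
    (hs : ∀ U ∈ 𝓝 (1 : G), ∃ s, ∀ r ∈ R s, (g s)⁻¹ * r * g s ∈ U)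
    (hl : ∀ s, lab (R s) (tr (g s * a) c) = lab (R s) (tr (g s * a') c')) (n : ℕ) :
    tr a c n ⊆ tr a' c' n := by
  intro b hb
  change b * a ∈ c n at hb
  change b * a' ∈ c' n
  by_contra hcon
  have hcont : Continuous fun p : G × G => p.1 * p.2 * a' := by fun_prop
  have h1 : (fun p : G × G => p.1 * p.2 * a') ⁻¹' (c' n)ᶜ ∈ 𝓝 ((b, 1) : G × G) := by
    refine hcont.continuousAt.preimage_mem_nhds ?_
    simp only [mul_one]
    exact (hc' n).isOpen_compl.mem_nhds hcon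
  obtain ⟨V, hV, U, hU, hVU⟩ := mem_nhds_prod_iff.1 h1
  obtain ⟨s, hsU⟩ := hs U hU
  have h2 : b * (g s)⁻¹ ∈ lab (R s) (tr (g s * a) c) n := by
    refine subset_closure ⟨1, (R s).one_mem, ?_⟩
    change b * (g s)⁻¹ * 1 * (g s * a) ∈ c n
    have e1 : b * (g s)⁻¹ * 1 * (g s * a) = b * a := by group
    rw [e1]; exact hb
  rw [hl s] at h2
  have h3 : (fun x : G => x * g s) ⁻¹' V ∈ 𝓝 (b * (g s)⁻¹) := by
    refine (continuous_mul_const (g s)).continuousAt.preimage_mem_nhds ?_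
    rw [inv_mul_cancel_right]
    exact hV
  obtain ⟨x, hxV, r, hr, hx⟩ := mem_closure_iff_nhds.1 h2 _ h3
  change x * r * (g s * a') ∈ c' n at hx
  have h4 : ((x * g s, (g s)⁻¹ * r * g s) : G × G) ∈ V ×ˢ U := ⟨hxV, hsU r hr⟩
  have h5 : x * g s * ((g s)⁻¹ * r * g s) * a' ∈ (c' n)ᶜ := hVU h4
  have e2 : x * g s * ((g s)⁻¹ * r * g s) * a' = x * r * (g s * a') := by group
  rw [e2] at h5
  exact h5 hx

theorem pf_LSM (h1 : T_LAB) : T_LSM := by
  have _ := h1
  intro G _ _ _ R g a a' c c' hc hc' hs hl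
  funext n
  exact Subset.antisymm (lsm_aux hc' hs hl n) (lsm_aux hc hs (fun s => (hl s).symm) n)

end Pool.Agent.H19.LP
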